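import Pool.Agent.Helper38_LDP.Stmts

/-! Squad LDP, module RIR. -/

namespace Pool.Agent.LDP.H9

open Polynomial
open scoped Polynomial.Bivariate

theorem bmap_coeff' {A B : Type*} [CommRing A] [CommRing B] (φ : A →+* B) (G : A[X][Y]) (j : ℕ) :
    (bmap φ G).coeff j = (G.coeff j).map φ := by
  rw [bmap, coeff_map, coe_mapRingHom]

theorem RR_bmap {A B : Type*} [CommRing A] [CommRing B] (φ : A →+* B) (m d : ℕ) (f : A[X][Y]) :
    RR m d (bmap φ f) = (RR m d f).map φ := by
  simp only [RR, wP, bmap_coeff', Polynomial.map_sub, Polynomial.map_mul, Polynomial.map_pow,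
    map_X, Polynomial.map_neg, Polynomial.map_sum]

/-- the special polynomial -/
noncomputable def ff (d : ℕ) : ℂ[X][X][Y] := 1 + C (C X) * Y + C (X ^ d) * Y ^ d

theorem ff_coeff (d j : ℕ) : (ff d).coeff j
    = (if j = 0 then 1 else 0) + (if j = 1 then C X else 0) + (if j = d then X ^ d else 0) := by
  rw [ff, coeff_add, coeff_add, coeff_one, coeff_C_mul, coeff_C_mul, coeff_X, coeff_X_pow]
  congr 2
  · by_cases h : j = 1
    · simp [h]
    · rw [if_neg h, if_neg (fun h' => h h'.symm), mul_zero]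
  · split_ifs <;> simp

theorem ff_good (ρ d : ℕ) (hd : 2 ≤ d) : Good ρ d (ff d) := by
  constructor
  · intro i j h
    rw [ff_coeff, coeff_add, coeff_add] at h
    by_contra hcon
    apply h
    have h1 : ((if j = 0 then (1 : ℂ[X][X]) else 0)).coeff i = 0 := by
      split_ifs with h0
      · rw [coeff_one, if_neg]
        intro hi
        apply hcon
        subst h0 hi
        simp
      · simp
    have h2 : ((if j = 1 then (C X : ℂ[X][X]) else 0)).coeff i = 0 := by
      split_ifs with h0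
      · rw [coeff_C, if_neg]
        intro hi
        apply hcon
        subst h0 hi
        refine ⟨by omega, ?_⟩
        nlinarith
      · simp
    have h3 : ((if j = d then (X ^ d : ℂ[X][X]) else 0)).coeff i = 0 := by
      split_ifs with h0
      · rw [coeff_X_pow, if_neg]
        intro hi
        apply hcon
        subst h0 hi
        refine ⟨le_rfl, ?_⟩
        nlinarith
      · simp
    rw [h1, h2, h3]
    simp
  · rw [ff_coeff, if_neg (by omega), if_neg (by omega), if_pos rfl]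
    simp

theorem RR_ff (m d : ℕ) (hd : 2 ≤ d) : RR m d (ff d)
    = X ^ (m + (m + d) * (d - 1)) - C X * X ^ (m + (m + d) * (d - 2)) - C (C ((-1) ^ (d - 1))) := by
  have hw : wP m d (ff d) = X ^ (m + d) := by
    rw [wP, ff_coeff, if_neg (by omega), if_neg (by omega), if_pos rfl, pow_add]
    ring
  have h0 : (ff d).coeff 0 = 1 := by
    rw [ff_coeff, if_pos rfl, if_neg (by omega), if_neg (by omega)]
    ring
  have hsum : ∑ j ∈ Finset.Ico 1 d, (ff d).coeff j * (-1 : ℂ[X][X]) ^ (j - 1)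
        * (X ^ m * (X ^ (m + d)) ^ (d - 1 - j)) = C X * X ^ (m + (m + d) * (d - 2)) := by
    rw [Finset.sum_eq_single_of_mem 1 (Finset.mem_Ico.2 ⟨le_rfl, hd⟩)]
    · rw [ff_coeff, if_neg (by omega), if_pos rfl, if_neg (by omega),
        show d - 1 - 1 = d - 2 by omega, pow_add X m ((m + d) * (d - 2)), pow_mul X (m + d) (d - 2)]
      ring
    · intro j hj hj1
      rw [Finset.mem_Ico] at hj
      rw [ff_coeff, if_neg (by omega), if_neg hj1, if_neg (by omega)]
      ring
  rw [RR, hw, h0, hsum, pow_add X m ((m + d) * (d - 1)), pow_mul]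
  simp only [map_pow, map_neg, map_one]

theorem RR_ff_irr (m d : ℕ) (hm : 1 ≤ m) (hd : 2 ≤ d) : Irreducible (RR m d (ff d)) := by
  rw [RR_ff m d hd]
  rw [← MulEquiv.irreducible_iff (Bivariate.swap (R := ℂ))]
  have h1 : (Bivariate.swap (R := ℂ)) (X ^ (m + (m + d) * (d - 1))
      - C X * X ^ (m + (m + d) * (d - 2)) - C (C ((-1) ^ (d - 1))))
      = C (-(X ^ (m + (m + d) * (d - 2)))) * X
        + C (X ^ (m + (m + d) * (d - 1)) - C ((-1) ^ (d - 1))) := by
    rw [map_sub, map_sub, map_mul, map_pow, map_pow, Bivariate.swap_Y, Bivariate.swap_X,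
      Bivariate.swap_C_C]
    simp only [map_neg, map_sub, map_pow, map_one]
    ring
  rw [h1]
  apply irreducible_C_mul_X_add_C
  · rw [neg_ne_zero]
    exact pow_ne_zero _ X_ne_zero
  · apply IsCoprime.isRelPrime
    apply IsCoprime.neg_left
    apply IsCoprime.pow_left
    have h2 : (C ((-1) ^ (d - 1)) : ℂ[X]) * C ((-1) ^ (d - 1)) = 1 := by
      rw [← C_mul, ← mul_pow]
      simp
    have h3 : (X : ℂ[X]) ^ (m + (m + d) * (d - 1)) = X ^ (m + (m + d) * (d - 1) - 1) * X := by
      rw [← pow_succ]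
      congr 1
      omega
    refine ⟨C ((-1) ^ (d - 1)) * X ^ (m + (m + d) * (d - 1) - 1), -C ((-1) ^ (d - 1)), ?_⟩
    rw [h3]
    linear_combination h2

/-- RIR -/
theorem rir (hGEN : GenStmt) (hMON : MonStmt) : RirStmt := by
  intro ρ n d m hpar hn
  have hd : 2 ≤ d := by
    rcases hpar with ⟨-, h, -⟩ | ⟨-, h, -⟩ <;> omega
  have hm : 1 ≤ m := by
    rcases hpar with ⟨-, -, h⟩ | ⟨-, -, h⟩ <;> omega
  obtain ⟨hgood, hbm, -, hspec⟩ := hGEN ρ n d (by
    rcases hpar with ⟨h, h', -⟩ | ⟨h, h', -⟩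
    · exact Or.inl ⟨h, h'⟩
    · exact Or.inr ⟨h, h'⟩) hn
  obtain ⟨φ, hφ⟩ := hspec ℂ[X] (ff d) (ff_good ρ d hd)
  obtain ⟨hmon, -⟩ := hMON ρ d m (AA n d) (fA ρ n d) hpar hgood
  have hirr : Irreducible (RR m d (fA ρ n d)) := by
    apply Polynomial.Monic.irreducible_of_irreducible_map φ _ hmon
    rw [← RR_bmap, hφ]
    exact RR_ff_irr m d hm hd
  rw [← hbm, RR_bmap]
  exact (Polynomial.Monic.irreducible_iff_irreducible_map_fraction_map (K := KK n d) hmon).1 hirr

end Pool.Agent.LDP.H9
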