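import Pool.Agent.Helper38_LDP.Stmts

/-! Squad LDP, module TWO. -/

namespace Pool.Agent.LDP.H9

open Polynomial
open scoped Polynomial.Bivariate IntermediateField

theorem aeval_mem_if {K E : Type} [Field K] [Field E] [Algebra K E] (F : IntermediateField K E)
    {s : E} (hs : s ∈ F) (p : K[X]) : aeval s p ∈ F := by
  rw [aeval_eq_sum_range]
  exact sum_mem fun i _ => F.smul_mem (pow_mem hs i)

theorem field_part {K E : Type} [Field K] [Field E] [Algebra K E] (s : E) (R : K[X])
    (hR : R.Monic) (h0 : aeval s R = 0) (hgen : ∀ e : E, ∃ p : K[X], aeval s p = e)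
    (Q : E[X]) (hQ : Irreducible Q)
    (hRQ : R.map (algebraMap K E) = (X - C s) * Q) (x : E) :
    (∃ c : K, algebraMap K E c = x) ∨ (∀ e : E, ∃ p : K[X], aeval x p = e) := by
  have hs : IsIntegral K s := ⟨R, hR, by rwa [← aeval_def]⟩
  have htop : K⟮s⟯ = ⊤ := by
    rw [eq_top_iff]
    intro e _
    obtain ⟨p, rfl⟩ := hgen e
    exact aeval_mem_if _ (IntermediateField.mem_adjoin_simple_self K s) p
  have hfin : FiniteDimensional K E := by
    have h1 := IntermediateField.adjoin.finiteDimensional hs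
    rw [htop] at h1
    exact Module.Finite.equiv (IntermediateField.topEquiv (F := K) (E := E)).toLinearEquiv
  have hfr : Module.finrank K E ≤ R.natDegree := by
    have h1 := IntermediateField.adjoin.finrank hs
    rw [htop, IntermediateField.finrank_top'] at h1
    rw [h1]
    exact natDegree_le_of_dvd (minpoly.dvd K s h0) hR.ne_zero
  have hx : IsIntegral K x := Algebra.IsIntegral.isIntegral x
  have hpoly : ∀ e ∈ K⟮x⟯, ∃ p : K[X], aeval x p = e := by
    intro e he
    have h1 : e ∈ (K⟮x⟯).toSubalgebra := he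
    rw [IntermediateField.adjoin_simple_toSubalgebra_of_isAlgebraic hx.isAlgebraic,
      Algebra.adjoin_singleton_eq_range_aeval] at h1
    obtain ⟨p, hp⟩ := h1
    exact ⟨p, hp⟩
  have hs' : IsIntegral K⟮x⟯ s := Algebra.IsIntegral.isIntegral s
  have hdvd : minpoly K⟮x⟯ s ∣ R.map (algebraMap K K⟮x⟯) := by
    apply minpoly.dvd
    rw [aeval_map_algebraMap]
    exact h0
  have hdvd2 : (minpoly K⟮x⟯ s).map (algebraMap K⟮x⟯ E) ∣ (X - C s) * Q := by
    rw [← hRQ]
    have h1 := Polynomial.map_dvd (algebraMap K⟮x⟯ E) hdvd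
    rw [Polynomial.map_map, ← IsScalarTower.algebraMap_eq] at h1
    exact h1
  obtain ⟨ν, hν⟩ : X - C s ∣ (minpoly K⟮x⟯ s).map (algebraMap K⟮x⟯ E) := by
    rw [dvd_iff_isRoot, IsRoot.def, eval_map_algebraMap]
    exact minpoly.aeval _ _
  rw [hν] at hdvd2
  have hνQ : ν ∣ Q := (mul_dvd_mul_iff_left (X_sub_C_ne_zero s)).1 hdvd2
  have hmon : (minpoly K⟮x⟯ s).Monic := minpoly.monic hs'
  have hdeg : (minpoly K⟮x⟯ s).natDegree = 1 + ν.natDegree := by
    have hν0 : ν ≠ 0 := by
      rintro rfl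
      rw [mul_zero] at hν
      exact (hmon.map (algebraMap K⟮x⟯ E)).ne_zero hν
    have h1 : ((minpoly K⟮x⟯ s).map (algebraMap K⟮x⟯ E)).natDegree = 1 + ν.natDegree := by
      rw [hν, natDegree_mul (X_sub_C_ne_zero s) hν0, natDegree_X_sub_C]
    rwa [natDegree_map] at h1
  rcases hQ.dvd_iff.1 hνQ with hu | hass
  · right
    have h1 : (minpoly K⟮x⟯ s).natDegree = 1 := by
      rw [hdeg, natDegree_eq_zero_of_isUnit hu]
    rw [minpoly.natDegree_eq_one_iff] at h1
    obtain ⟨y, hy⟩ := h1
    intro e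
    apply hpoly
    obtain ⟨p, rfl⟩ := hgen e
    have hsx : s ∈ K⟮x⟯ := by
      rw [← hy]
      exact y.2
    exact aeval_mem_if _ hsx p
  · left
    have h1 : R.natDegree = 1 + Q.natDegree := by
      have h2 : (R.map (algebraMap K E)).natDegree = 1 + Q.natDegree := by
        rw [hRQ, natDegree_mul (X_sub_C_ne_zero s) hQ.ne_zero, natDegree_X_sub_C]
      rwa [natDegree_map] at h2
    have h2 : ν.natDegree = Q.natDegree := natDegree_eq_of_degree_eq (degree_eq_degree_of_associated hass.symm)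
    have h3 : (minpoly K⟮x⟯ s).natDegree ≤ Module.finrank K⟮x⟯ E := minpoly.natDegree_le s
    have h4 := Module.finrank_mul_finrank K K⟮x⟯ E
    have h5 : Module.finrank K K⟮x⟯ = 1 := by
      have h6 : 0 < Module.finrank K K⟮x⟯ := Module.finrank_pos
      have h7 : R.natDegree ≤ Module.finrank K⟮x⟯ E := by omega
      have h8 : 0 < R.natDegree := by omega
      nlinarith
    rw [IntermediateField.finrank_adjoin_simple_eq_one_iff, IntermediateField.mem_bot] at h5
    exact h5

theorem ring_part {A' A K E : Type} [CommRing A'] [IsDomain A'] [UniqueFactorizationMonoid A']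
    [CommRing A] [IsDomain A] [Field K] [Algebra A K] [IsFractionRing A K] [Field E] [Algebra K E]
    (ι : A' →+* A) (a0 a1 : A) (ψ : A →+* A'[X][Y]) (h : A'[X])
    (hψι : ψ.comp ι = (C : A'[X] →+* A'[X][Y]).comp C)
    (hψ0 : ψ a0 = -(Y * C X + C h)) (hψ1 : ψ a1 = Y)
    (hext : ∀ f g : A →+* E, f.comp ι = g.comp ι → f a0 = g a0 → f a1 = g a1 → f = g)
    (s : E) (hgen : ∀ e : E, ∃ p : K[X], aeval s p = e)
    (R : A[X]) (hR : R = C a0 + C a1 * X + h.map ι) (hmon : R.Monic)
    (hs : aeval s (R.map (algebraMap A K)) = 0) :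
    ∃ Q : E[X], Irreducible Q ∧
      (R.map (algebraMap A K)).map (algebraMap K E) = (X - C s) * Q := by
  set α : A →+* E := (algebraMap K E).comp (algebraMap A K) with hα
  set η : A'[X][Y] →+* E := eval₂RingHom (eval₂RingHom (α.comp ι) s) (α a1) with hη
  have hηCC : ∀ c : A', η (C (C c)) = α (ι c) := by
    intro c
    simp [hη]
  have hηS : η (C X) = s := by simp [hη]
  have hηT : η Y = α a1 := by simp [hη]
  have hηC : ∀ p : A'[X], η (C p) = eval₂ (α.comp ι) s p := by
    intro p
    simp [hη]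
  have hroot : α a0 + α a1 * s + eval₂ (α.comp ι) s h = 0 := by
    have h1 := hs
    rw [aeval_def, eval₂_map, hR, eval₂_add, eval₂_add, eval₂_mul, eval₂_C, eval₂_C, eval₂_X,
      eval₂_map] at h1
    exact h1
  have hcomp : η.comp ψ = α := by
    apply hext
    · rw [RingHom.comp_assoc, hψι]
      ext c
      simp only [RingHom.comp_apply]
      exact hηCC c
    · rw [RingHom.comp_apply, hψ0, map_neg, map_add, map_mul, hηT, hηS, hηC]
      linear_combination -hroot
    · rw [RingHom.comp_apply, hψ1, hηT]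
  have hαinj : Function.Injective α :=
    (algebraMap K E).injective.comp (IsFractionRing.injective A K)
  -- the polynomial `R` over `B`
  obtain ⟨q, hq⟩ : (X - C X : A'[X][Y]) ∣ h.map C - C h := by
    rw [dvd_iff_isRoot, IsRoot.def, eval_sub, eval_C, eval_map, eval₂_C_X, sub_self]
  have hP : R.map ψ = (X - C (C X)) * (C Y + q.map C) := by
    have h1 : (h.map ι).map ψ = (h.map C).map (C : A'[X] →+* A'[X][Y]) := by
      rw [Polynomial.map_map, hψι, Polynomial.map_map]
    have h2 : (h.map C).map (C : A'[X] →+* A'[X][Y]) - C (C h) = (X - C (C X)) * q.map C := by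
      have h3 := congrArg (Polynomial.map (C : A'[X] →+* A'[X][Y])) hq
      rw [Polynomial.map_sub, Polynomial.map_mul, Polynomial.map_sub, map_X, map_C, map_C] at h3
      exact h3
    rw [hR, Polynomial.map_add, Polynomial.map_add, Polynomial.map_mul, map_C, map_C, map_X, h1,
      hψ0, hψ1, mul_add, ← h2]
    simp only [map_neg, map_add, map_mul]
    ring
  have hQmon : (C Y + q.map C : A'[X][Y][X]).Monic := by
    apply (monic_X_sub_C (C X : A'[X][Y])).of_mul_monic_left
    rw [← hP]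
    exact hmon.map ψ
  have hQirr : Irreducible (C Y + q.map C : A'[X][Y][X]) := by
    rw [← MulEquiv.irreducible_iff (Bivariate.swap (R := A'[X]))]
    rw [map_add]
    have h1 : (Bivariate.swap (R := A'[X])) (C X) = Y := Bivariate.swap_X
    have h2 : (Bivariate.swap (R := A'[X])) (q.map C) = C q := Bivariate.swap_map_C q
    rw [h1, h2]
    have h3 : (Y + C q : A'[X][X][Y]) = X - C (-q) := by simp
    rw [h3]
    exact irreducible_X_sub_C _
  -- `B` is integral over `A`
  let algAB : Algebra A A'[X][Y] := ψ.toAlgebra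
  have hint : Algebra.IsIntegral A A'[X][Y] := by
    have hCC : ∀ c : A', IsIntegral A (C (C c) : A'[X][Y]) := by
      intro c
      have h1 : (C (C c) : A'[X][Y]) = algebraMap A A'[X][Y] (ι c) := by
        have := congrArg (fun f : A' →+* A'[X][Y] => f c) hψι
        exact this.symm
      rw [h1]
      exact isIntegral_algebraMap
    have hT : IsIntegral A (Y : A'[X][Y]) := by
      rw [← hψ1]
      exact isIntegral_algebraMap (R := A) (A := A'[X][Y]) (x := a1)
    have hS : IsIntegral A (C X : A'[X][Y]) := by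
      refine ⟨R, hmon, ?_⟩
      have h1 : eval₂ ψ (C X) R = eval (C X) (R.map ψ) := by rw [eval_map]
      change eval₂ ψ (C X) R = 0
      rw [h1, hP, eval_mul, eval_sub, eval_X, eval_C, sub_self, zero_mul]
    have hC : ∀ p : A'[X], IsIntegral A (C p : A'[X][Y]) := by
      intro p
      induction p using Polynomial.induction_on' with
      | add p q hp hq => rw [C_add]; exact hp.add hq
      | monomial k c =>
        rw [← C_mul_X_pow_eq_monomial, C_mul, C_pow]
        exact (hCC c).mul (hS.pow k)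
    refine ⟨fun b => ?_⟩
    induction b using Polynomial.induction_on' with
    | add p q hp hq => exact hp.add hq
    | monomial k c =>
      rw [← C_mul_X_pow_eq_monomial]
      exact (hC c).mul (hT.pow k)
  have hker : RingHom.ker η = ⊥ := by
    apply Ideal.eq_bot_of_comap_eq_bot (R := A)
    rw [eq_bot_iff]
    intro a ha
    rw [Ideal.mem_comap, RingHom.mem_ker] at ha
    have h1 : α a = 0 := by
      rw [← hcomp]
      exact ha
    rw [Ideal.mem_bot]
    exact hαinj (by rw [h1, map_zero])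
  have hηinj : Function.Injective η := (RingHom.injective_iff_ker_eq_bot η).2 hker
  let algBE : Algebra A'[X][Y] E := η.toAlgebra
  have hfaith : FaithfulSMul A'[X][Y] E :=
    (faithfulSMul_iff_algebraMap_injective A'[X][Y] E).2 hηinj
  have hfrac : IsFractionRing A'[X][Y] E := by
    apply IsFractionRing.of_field
    intro z
    obtain ⟨p, rfl⟩ := hgen z
    suffices H : ∃ x y : A'[X][Y], η y ≠ 0 ∧ aeval s p = η x / η y by
      obtain ⟨x, y, -, hxy⟩ := H
      exact ⟨x, y, hxy⟩
    induction p using Polynomial.induction_on' with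
    | add p q hp hq =>
      obtain ⟨x, y, hy, hxy⟩ := hp
      obtain ⟨x', y', hy', hxy'⟩ := hq
      refine ⟨x * y' + y * x', y * y', ?_, ?_⟩
      · rw [map_mul]
        exact mul_ne_zero hy hy'
      · rw [map_add, hxy, hxy', map_add, map_mul, map_mul, map_mul, div_add_div _ _ hy hy']
    | monomial k c =>
      obtain ⟨a, b, hb, hab⟩ := IsFractionRing.div_surjective (A := A) c
      refine ⟨ψ a * (C X) ^ k, ψ b, ?_, ?_⟩
      · have h1 : η (ψ b) = α b := by rw [← hcomp]; rfl
        rw [h1]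
        intro h2
        exact nonZeroDivisors.ne_zero hb (hαinj (by rw [h2, map_zero]))
      · have h1 : η (ψ b) = α b := by rw [← hcomp]; rfl
        have h2 : η (ψ a) = α a := by rw [← hcomp]; rfl
        rw [map_mul, map_pow, hηS, h1, h2, aeval_monomial, ← hab, map_div₀]
        rw [div_mul_eq_mul_div]
        rfl
  refine ⟨(C Y + q.map C : A'[X][Y][X]).map η, ?_, ?_⟩
  · exact (Polynomial.Monic.irreducible_iff_irreducible_map_fraction_map (K := E) hQmon).1 hQirr
  · rw [Polynomial.map_map, ← hα, ← hcomp, ← Polynomial.map_map, hP, Polynomial.map_mul,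
      Polynomial.map_sub, map_X, map_C, hηS]

theorem RR_two {L : Type*} [CommRing L] (m : ℕ) (f : L[X][Y]) :
    RR m 2 f = X ^ m * (X ^ m * f.coeff 2) - f.coeff 1 * X ^ m + f.coeff 0 := by
  have h1 : Finset.Ico 1 2 = {1} := by decide
  simp [RR, wP, h1]

theorem bmap_coeff {A B : Type*} [CommRing A] [CommRing B] (φ : A →+* B) (G : A[X][Y]) (j : ℕ) :
    (bmap φ G).coeff j = (G.coeff j).map φ := by
  rw [bmap, coeff_map, coe_mapRingHom]

theorem RR_two_bmap {A B : Type*} [CommRing A] [CommRing B] (φ : A →+* B) (m : ℕ) (f : A[X][Y]) :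
    RR m 2 (bmap φ f) = (RR m 2 f).map φ := by
  rw [RR_two, RR_two, bmap_coeff, bmap_coeff, bmap_coeff]
  simp

/-- range of the base change -/
noncomputable def rg {A' A : Type*} [CommRing A'] [CommRing A] (ι : A' →+* A) :
    Subring (A[X][Y]) := (mapRingHom (mapRingHom ι) : A'[X][Y] →+* A[X][Y]).range

theorem th_range {A' A : Type*} [CommRing A'] [CommRing A] (ι : A' →+* A) (ρ i : ℕ) :
    th ρ A i ∈ rg ι := by
  refine ⟨th ρ A' i, ?_⟩
  unfold th
  split_ifs <;> simp

theorem res_monomial (ρ n : ℕ) (L : Type*) [CommRing L] (m : Fin (n + 2) →₀ ℕ) (c : L) :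
    res ρ n L (MvPolynomial.monomial m c)
      = C (C c) * m.prod fun i k => th ρ L i.1 ^ k := by
  rw [res, MvPolynomial.aeval_monomial]
  rfl

/-- the monomial `x_3^2` -/
noncomputable def m0 (n : ℕ) (hn : 3 ≤ n) : Fin (n + 2) →₀ ℕ :=
  Finsupp.single ⟨3, by omega⟩ 2

/-- the monomial `x_1 x_3` -/
noncomputable def m1 (n : ℕ) (hn : 3 ≤ n) : Fin (n + 2) →₀ ℕ :=
  Finsupp.single ⟨1, by omega⟩ 1 + Finsupp.single ⟨3, by omega⟩ 1

theorem hm0 (n : ℕ) (hn : 3 ≤ n) :
    (m0 n hn).degree = 2 ∧ m0 n hn ≠ Finsupp.single 0 2 := by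
  constructor
  · simp [m0]
  · intro h
    have h1 := DFunLike.congr_fun h 0
    have h2 : (⟨3, by omega⟩ : Fin (n + 2)) ≠ 0 := by
      intro h3
      have := congrArg Fin.val h3
      simp at this
    rw [m0, Finsupp.single_eq_of_ne h2.symm, Finsupp.single_eq_same] at h1
    omega

theorem hm1 (n : ℕ) (hn : 3 ≤ n) :
    (m1 n hn).degree = 2 ∧ m1 n hn ≠ Finsupp.single 0 2 := by
  constructor
  · simp [m1]
  · intro h
    have h1 := DFunLike.congr_fun h 0
    have h2 : (⟨3, by omega⟩ : Fin (n + 2)) ≠ 0 := by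
      intro h3
      have := congrArg Fin.val h3
      simp at this
    have h3 : (⟨1, by omega⟩ : Fin (n + 2)) ≠ 0 := by
      intro h3
      have := congrArg Fin.val h3
      simp at this
    rw [m1, Finsupp.add_apply, Finsupp.single_eq_of_ne h2.symm, Finsupp.single_eq_of_ne h3.symm,
      Finsupp.single_eq_same] at h1
    omega

theorem hm01 (n : ℕ) (hn : 3 ≤ n) : m1 n hn ≠ m0 n hn := by
  intro h
  have h1 := DFunLike.congr_fun h ⟨1, by omega⟩
  have h2 : (⟨1, by omega⟩ : Fin (n + 2)) ≠ ⟨3, by omega⟩ := by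
    intro h3
    have := congrArg Fin.val h3
    simp at this
  rw [m1, m0, Finsupp.add_apply, Finsupp.single_eq_of_ne h2, Finsupp.single_eq_of_ne h2,
    Finsupp.single_eq_same] at h1
  omega

theorem T0 (n : ℕ) (hn : 3 ≤ n) (L : Type*) [CommRing L] :
    ((m0 n hn).prod fun i k => th 1 L i.1 ^ k) = 1 := by
  rw [m0, Finsupp.prod_single_index (by simp)]
  simp [th]

theorem T1 (n : ℕ) (hn : 3 ≤ n) (L : Type*) [CommRing L] :
    ((m1 n hn).prod fun i k => th 1 L i.1 ^ k) = C X := by
  rw [m1, Finsupp.prod_add_index' (by simp) (by intro a b c; rw [pow_add]),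
    Finsupp.prod_single_index (by simp), Finsupp.prod_single_index (by simp)]
  simp [th]

/-- the variable of `x_3^2` -/
noncomputable def v0 (n : ℕ) (hn : 3 ≤ n) : Coef n 2 := ⟨m0 n hn, hm0 n hn⟩

/-- the variable of `x_1 x_3` -/
noncomputable def v1 (n : ℕ) (hn : 3 ≤ n) : Coef n 2 := ⟨m1 n hn, hm1 n hn⟩

/-- polynomial ring in the other variables -/
abbrev A2 (n : ℕ) (hn : 3 ≤ n) : Type :=
  MvPolynomial {i : Coef n 2 // i ≠ v0 n hn ∧ i ≠ v1 n hn} ℂ

/-- inclusion -/
noncomputable def io (n : ℕ) (hn : 3 ≤ n) : A2 n hn →+* AA n 2 :=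
  (MvPolynomial.rename Subtype.val : A2 n hn →ₐ[ℂ] AA n 2).toRingHom

theorem io_C (n : ℕ) (hn : 3 ≤ n) (c : ℂ) : io n hn (MvPolynomial.C c) = MvPolynomial.C c := by
  change MvPolynomial.rename Subtype.val (MvPolynomial.C c) = _
  rw [MvPolynomial.rename_C]

theorem io_X (n : ℕ) (hn : 3 ≤ n) (i) : io n hn (MvPolynomial.X i) = MvPolynomial.X i.1 := by
  change MvPolynomial.rename Subtype.val (MvPolynomial.X i) = _
  rw [MvPolynomial.rename_X]

theorem fA_split (n : ℕ) (hn : 3 ≤ n) : ∃ G : (A2 n hn)[X][Y],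
    fA 1 n 2 = C (C (MvPolynomial.X (v0 n hn))) + C (C (MvPolynomial.X (v1 n hn)) * X)
      + bmap (io n hn) G := by
  classical
  set S := (Finset.univ : Finset (Fin (n + 2))).finsuppAntidiag 2 with hS
  have hmemS : ∀ m : Fin (n + 2) →₀ ℕ, m ∈ S ↔ m.degree = 2 := by
    intro m
    rw [hS, Finset.mem_finsuppAntidiag]
    constructor
    · rintro ⟨h1, -⟩
      rw [Finsupp.degree_eq_sum, h1]
    · intro h1
      rw [Finsupp.degree_eq_sum] at h1
      exact ⟨h1, Finset.subset_univ _⟩
  have h1 : fA 1 n 2 = ∑ m ∈ S, C (C (cf n 2 m)) * m.prod fun i k => th 1 (AA n 2) i.1 ^ k := by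
    rw [fA, FA, map_sum]
    apply Finset.sum_congr rfl
    intro m _
    rw [res_monomial]
  have hmem0 : m0 n hn ∈ S := (hmemS _).2 (hm0 n hn).1
  have hmem1 : m1 n hn ∈ S.erase (m0 n hn) :=
    Finset.mem_erase.2 ⟨hm01 n hn, (hmemS _).2 (hm1 n hn).1⟩
  rw [← Finset.add_sum_erase _ _ hmem0, ← Finset.add_sum_erase _ _ hmem1, T0, T1] at h1
  have hrest : ∑ m ∈ (S.erase (m0 n hn)).erase (m1 n hn),
      C (C (cf n 2 m)) * (m.prod fun i k => th 1 (AA n 2) i.1 ^ k) ∈ rg (io n hn) := by
    apply sum_mem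
    intro m hm
    rw [Finset.mem_erase, Finset.mem_erase] at hm
    obtain ⟨hne1, hne0, -⟩ := hm
    apply mul_mem
    · have h2 : ∃ c, io n hn c = cf n 2 m := by
        by_cases h3 : m.degree = 2 ∧ m ≠ Finsupp.single 0 2
        · refine ⟨MvPolynomial.X ⟨⟨m, h3⟩, ?_, ?_⟩, ?_⟩
          · intro h4
            exact hne0 (congrArg Subtype.val h4)
          · intro h4
            exact hne1 (congrArg Subtype.val h4)
          · rw [io_X, cf, dif_pos h3]
        · refine ⟨1, ?_⟩
          rw [map_one, cf, dif_neg h3]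
      obtain ⟨c, hc⟩ := h2
      refine ⟨C (C c), ?_⟩
      simp [hc]
    · apply prod_mem
      intro i _
      exact pow_mem (th_range _ _ _) _
  obtain ⟨G, hG⟩ := hrest
  refine ⟨G, ?_⟩
  have hc0 : cf n 2 (m0 n hn) = MvPolynomial.X (v0 n hn) := by
    rw [cf, dif_pos (hm0 n hn)]
    rfl
  have hc1 : cf n 2 (m1 n hn) = MvPolynomial.X (v1 n hn) := by
    rw [cf, dif_pos (hm1 n hn)]
    rfl
  rw [h1, ← hG, hc0, hc1, mul_one, C_mul, add_assoc]
  rfl

/-- TWO -/
theorem two (hGEN : GenStmt) (hMON : MonStmt) : TwoStmt := by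
  classical
  intro n m E _ _ s hn hm hgen hs x
  obtain ⟨hgood, hbm, -, -⟩ := hGEN 1 n 2 (Or.inr ⟨rfl, rfl⟩) (by omega)
  obtain ⟨G, hG⟩ := fA_split n hn
  set h : (A2 n hn)[X] := X ^ m * (X ^ m * G.coeff 2) - G.coeff 1 * X ^ m + G.coeff 0 with hh
  obtain ⟨hmon, -⟩ := hMON 1 2 m (AA n 2) (fA 1 n 2) (Or.inr ⟨rfl, rfl, hm⟩) hgood
  have hR : RR m 2 (fA 1 n 2) = C (MvPolynomial.X (v0 n hn)) + C (MvPolynomial.X (v1 n hn)) * X
      + h.map (io n hn) := by
    rw [hG, RR_two]
    simp only [coeff_add, bmap_coeff]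
    rw [coeff_C_succ, coeff_C_succ, coeff_C_succ, coeff_C_succ, coeff_C_zero, coeff_C_zero, hh]
    simp only [Polynomial.map_add, Polynomial.map_sub, Polynomial.map_mul, Polynomial.map_pow,
      map_X]
    ring
  rw [← hbm, RR_two_bmap] at hs
  -- the substitution
  set ψ : AA n 2 →+* (A2 n hn)[X][Y] := MvPolynomial.eval₂Hom
    (((C : (A2 n hn)[X] →+* (A2 n hn)[X][Y]).comp C).comp MvPolynomial.C)
    (fun v => if h0 : v = v0 n hn then (-(Y * C X + C h) : (A2 n hn)[X][Y])
      else if h1 : v = v1 n hn then Y else C (C (MvPolynomial.X ⟨v, h0, h1⟩))) with hψ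
  have hne : v1 n hn ≠ v0 n hn := by
    intro h1
    exact hm01 n hn (congrArg Subtype.val h1)
  obtain ⟨Q, hQ, hRQ⟩ := ring_part (A' := A2 n hn) (A := AA n 2) (K := KK n 2) (E := E)
    (io n hn) (MvPolynomial.X (v0 n hn)) (MvPolynomial.X (v1 n hn)) ψ h (by
      apply MvPolynomial.ringHom_ext
      · intro c
        simp only [RingHom.comp_apply]
        rw [io_C, hψ, MvPolynomial.eval₂Hom_C]
        rfl
      · intro i
        simp only [RingHom.comp_apply]
        rw [io_X, hψ, MvPolynomial.eval₂Hom_X', dif_neg i.2.1, dif_neg i.2.2])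
    (by rw [hψ, MvPolynomial.eval₂Hom_X', dif_pos rfl])
    (by rw [hψ, MvPolynomial.eval₂Hom_X', dif_neg hne, dif_pos rfl])
    (by
      intro f g hfg h0 h1
      apply MvPolynomial.ringHom_ext
      · intro c
        have h2 := congrArg (fun F : A2 n hn →+* E => F (MvPolynomial.C c)) hfg
        simp only [RingHom.comp_apply, io_C] at h2
        exact h2
      · intro i
        by_cases hi0 : i = v0 n hn
        · rw [hi0]; exact h0
        · by_cases hi1 : i = v1 n hn
          · rw [hi1]; exact h1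
          · have h2 := congrArg (fun F : A2 n hn →+* E => F (MvPolynomial.X ⟨i, hi0, hi1⟩)) hfg
            simp only [RingHom.comp_apply, io_X] at h2
            exact h2)
    s hgen (RR m 2 (fA 1 n 2)) hR hmon hs
  exact field_part s ((RR m 2 (fA 1 n 2)).map (algebraMap (AA n 2) (KK n 2))) (hmon.map _) hs hgen
    Q hQ hRQ x

end Pool.Agent.LDP.H9
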